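import Pool.Agent.FL.Main14
import Pool.Agent.H84.Fl.Final

/-!
# Vertex `π`-floodlights: `f n = ⌊9 (n - 1) / 14⌋`

Upper bound: for every simple polygon in general position fourteen sets of inward-facing
floodlights, each of which illuminates the polygon, have together at most `9 (n - 1)` lights. The
proof is by induction on the number of vertices along diagonals; the base case are the
pseudo-triangles. Lower bound: explicit `x`-monotone polygons, periodic with the period 14 except
for the last part, with points which are visible from few vertices.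
-/

namespace Pool.Agent.Results.MP_8a5d4f_co.ExactValue

open Filter Pool.Agent.H54.Fl
open scoped ENNReal

/-- `f n = ⌊9 (n - 1) / 14⌋` for all `n ≥ 3`, and `limsup f n / n = 9 / 14`. -/
theorem result : (∀ n : ℕ, 3 ≤ n → f n = ((9 * (n - 1) / 14 : ℕ) : ℕ∞)) ∧
    limsup (fun n : ℕ => (f n : ℝ≥0∞) / n) atTop = 9 / 14 :=
  ⟨fun n hn => le_antisymm (Pool.Agent.FL.f_le_14 hn) (Pool.Agent.H84.Fl.le_f n hn),
    Pool.Agent.H95.Poly.limsup_eq fun _ hn => Pool.Agent.FL.f_le_14 hn⟩

end Pool.Agent.Results.MP_8a5d4f_co.ExactValue
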